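import Pool.Agent.Lib.MP_d71b33_lc_h91.Sys

/-!
# Greedy lemma and double runs (MP_d71b33_lc, task GR)
-/

namespace Pool.Agent.Bfly

open Set

variable {n : ℕ}

namespace GR

theorem lev_step (Φ : Frame n) {k : ℕ} (h : k < Φ.m) : Φ.lev k ≤ Φ.lev (k + 1) := by
  have := Φ.lev_lo k h
  omega

theorem lev_mono (Φ : Frame n) {k l : ℕ} (h : k ≤ l) (hl : l ≤ Φ.m) : Φ.lev k ≤ Φ.lev l := by
  induction l, h using Nat.le_induction with
  | base => exact le_rfl
  | succ l h ih => exact (ih (by omega)).trans (lev_step Φ (by omega))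

theorem lev_le_n (Φ : Frame n) {k : ℕ} (hk : k ≤ Φ.m) : Φ.lev k ≤ n := by
  have := lev_mono Φ hk le_rfl
  rw [Φ.lev_m] at this
  exact this

theorem bit_eq {x : Rw n} {j : ℕ} (hj : j < n) : bit x j = x ⟨j, hj⟩ := by
  unfold bit; rw [dif_pos hj]

theorem wr_in {p q : ℕ} {x v : Rw n} {j : Fin n} (h : p ≤ j.val) (h' : j.val < q) :
    wr p q x v j = v j := by
  unfold wr; rw [if_pos ⟨h, h'⟩]

theorem wr_out {p q : ℕ} {x v : Rw n} {j : Fin n} (h : j.val < p ∨ q ≤ j.val) :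
    wr p q x v j = x j := by
  unfold wr; rw [if_neg (by omega)]

theorem exists_seq_up {α : Type*} (R : ℕ → α → α → Prop) (p q : ℕ)
    (h : ∀ k, p ≤ k → k < q → ∀ a, ∃ b, R k a b) (a : α) :
    ∃ f : ℕ → α, f p = a ∧ ∀ k, p ≤ k → k < q → R k (f k) (f (k + 1)) := by
  classical
  let g : ℕ → α := fun t => Nat.rec a
    (fun t b => if h' : p + t < q then Classical.choose (h (p + t) (by omega) h' b) else b) t
  have hg : ∀ t (h' : p + t < q), g (t + 1) = Classical.choose (h (p + t) (by omega) h' (g t)) := by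
    intro t h'
    show (if h' : p + t < q then Classical.choose (h (p + t) (by omega) h' (g t)) else g t) = _
    rw [dif_pos h']
  refine ⟨fun k => g (k - p), ?_, ?_⟩
  · show g (p - p) = a
    rw [Nat.sub_self]
    rfl
  · intro k hk hkq
    have h1 : p + (k - p) < q := by omega
    have h2 := Classical.choose_spec (h (p + (k - p)) (by omega) h1 (g (k - p)))
    rw [← hg _ h1] at h2
    have e1 : p + (k - p) = k := by omega
    have e2 : k - p + 1 = k + 1 - p := by omega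
    rw [e1, e2] at h2
    exact h2

theorem exists_seq_down {α : Type*} (R : ℕ → α → α → Prop) (p q : ℕ)
    (h : ∀ k, p ≤ k → k < q → ∀ a, ∃ b, R k a b) (a : α) :
    ∃ f : ℕ → α, f q = a ∧ ∀ k, p ≤ k → k < q → R k (f (k + 1)) (f k) := by
  obtain ⟨f, hf, hf'⟩ := exists_seq_up (fun t => R (p + (q - 1 - t))) p q
    (fun t ht ht' => h (p + (q - 1 - t)) (by omega) (by omega)) a
  refine ⟨fun k => f (p + q - k), ?_, ?_⟩
  · show f (p + q - q) = a
    rw [Nat.add_sub_cancel]; exact hf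
  · intro k hk hkq
    have h1 := hf' (p + q - 1 - k) (by omega) (by omega)
    have e1 : p + (q - 1 - (p + q - 1 - k)) = k := by omega
    have e2 : p + q - 1 - k + 1 = p + q - k := by omega
    have e3 : p + q - (k + 1) = p + q - 1 - k := by omega
    simp only [e1, e2] at h1
    show R k (f (p + q - (k + 1))) (f (p + q - k))
    rw [e3]
    exact h1

end GR

namespace Sys

variable (S : Sys n)

theorem GRh_pos (i : ℕ) : 0 < S.h i := by
  unfold h
  have h1 := S.h0_big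
  have h2 := S.M_big
  have h3 : 0 < S.M := by
    have : 0 < 16 * cbg S.g := by unfold cbg; omega
    omega
  have := pow_pos h3 i
  exact Nat.mul_pos (by omega) this

theorem GRgrid_lt {i j k : ℕ} (hi : S.grid i k) (hj : S.grid j k) (hij : i < j) : False := by
  unfold grid at hi hj
  have hpos := S.GRh_pos i
  obtain ⟨c, hc⟩ := S.M_even
  have h1 : 2 * S.h i ∣ S.h j := by
    obtain ⟨d, rfl⟩ := Nat.exists_eq_add_of_lt hij
    refine ⟨c * S.M ^ d, ?_⟩
    unfold h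
    rw [pow_add, pow_add]
    rw [show S.M ^ 1 = 2 * c by rw [pow_one]; exact hc]
    ring
  have h2 : 2 * S.h i ∣ k + S.o := by
    have e := Nat.div_add_mod (k + S.o) (2 * S.h j)
    rw [hj] at e
    rw [← e]
    exact Nat.dvd_add (Dvd.dvd.mul_right (Dvd.dvd.mul_left h1 2) _) h1
  have h3 := Nat.mod_eq_zero_of_dvd h2
  omega

/-- the ruler: different scales have no common grid points -/
theorem grid_unique {i j k : ℕ} (hi : S.grid i k) (hj : S.grid j k) : i = j := by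
  rcases lt_trichotomy i j with h | h | h
  · exact (S.GRgrid_lt hi hj h).elim
  · exact h
  · exact (S.GRgrid_lt hj hi h).elim

theorem GRh0_dvd {i k : ℕ} (hi : S.grid i k) : S.h0 ∣ k + S.o := by
  unfold grid at hi
  have h1 : S.h0 ∣ S.h i := Dvd.intro _ rfl
  have e := Nat.div_add_mod (k + S.o) (2 * S.h i)
  rw [hi] at e
  rw [← e]
  exact Nat.dvd_add (Dvd.dvd.mul_right (Dvd.dvd.mul_left h1 2) _) h1

/-- walls of cores are not next to each other -/
theorem grid_succ {i j k : ℕ} (hi : S.grid i k) (hj : S.grid j (k + 1)) : False := by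
  have h1 := S.GRh0_dvd hi
  have h2 := S.GRh0_dvd hj
  have h3 : S.h0 ∣ 1 := by
    have e : k + 1 + S.o = (k + S.o) + 1 := by ring
    rw [e] at h2
    exact (Nat.dvd_add_right h1).mp h2
  have h4 := S.h0_big
  have := Nat.le_of_dvd one_pos h3
  omega

/-- choice of a digit which differs from the digits of few cores -/
theorem GRexists_digit {k : ℕ} (hk : k < S.m) (ρ σ : Bool) (B : Set (Core n))
    (hB : B.encard ≤ (2 * S.K : ℕ)) :
    ∃ v : Rw n, bit v (S.rb k) = ρ ∧ bit v (S.sb k) = σ ∧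
      ∀ Q ∈ B, ∃ j : Fin n, S.lev k ≤ j.val ∧ j.val < S.lev (k + 1) ∧ v j ≠ Q.b j := by
  classical
  have hn := GR.lev_le_n S.toFrame (k := k + 1) (by omega)
  have hlo := S.lev_lo k hk
  have hr1 := S.rb_lo k hk
  have hr2 := S.rb_hi k hk
  have hs1 := S.sb_lo k hk
  have hs2 := S.sb_hi k hk
  have hne := S.rb_ne_sb k hk
  set T : Finset ℕ := ((Finset.Ico (S.lev k) (S.lev (k + 1))).erase (S.rb k)).erase (S.sb k) with hT
  have hTc : S.g - 2 ≤ T.card := by
    rw [hT, Finset.card_erase_of_mem, Finset.card_erase_of_mem, Nat.card_Ico]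
    · omega
    · rw [Finset.mem_Ico]; omega
    · rw [Finset.mem_erase, Finset.mem_Ico]; exact ⟨fun h => hne h.symm, by omega⟩
  set dg : Core n → Finset ℕ := fun Q => T.filter fun j => bit Q.b j = true with hdg
  have hex : ∃ A ∈ T.powerset, A ∉ dg '' B := by
    by_contra hcon
    push Not at hcon
    have h1 : (T.powerset : Set (Finset ℕ)) ⊆ dg '' B := fun A hA => hcon A (Finset.mem_coe.mp hA)
    have h2 : (T.powerset : Set (Finset ℕ)).encard ≤ (2 * S.K : ℕ) :=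
      (Set.encard_le_encard h1).trans ((Set.encard_image_le dg B).trans hB)
    rw [Set.encard_coe_eq_coe_finsetCard, Finset.card_powerset] at h2
    have h3 : 2 ^ T.card ≤ 2 * S.K := by exact_mod_cast h2
    have h4 : 2 ^ (S.g - 2) ≤ 2 ^ T.card := Nat.pow_le_pow_right (by norm_num) hTc
    have h5 := S.K_small
    omega
  obtain ⟨A, hA, hAB⟩ := hex
  refine ⟨fun j => if j.val = S.rb k then ρ else if j.val = S.sb k then σ else decide (j.val ∈ A),
    ?_, ?_, ?_⟩
  · rw [GR.bit_eq (by omega)]; simp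
  · rw [GR.bit_eq (by omega)]
    simp only
    rw [if_neg (by omega)]
    simp
  · intro Q hQ
    by_contra hcon
    push Not at hcon
    apply hAB
    refine ⟨Q, hQ, ?_⟩
    rw [hdg]
    ext j
    simp only [Finset.mem_filter]
    have hjT : j ∈ T → S.lev k ≤ j ∧ j < S.lev (k + 1) ∧ j ≠ S.rb k ∧ j ≠ S.sb k := by
      intro hj
      rw [hT, Finset.mem_erase, Finset.mem_erase, Finset.mem_Ico] at hj
      exact ⟨hj.2.2.1, hj.2.2.2, hj.2.1, hj.1⟩
    constructor
    · rintro ⟨hj, hb⟩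
      obtain ⟨h1, h2, h3, h4⟩ := hjT hj
      have hjn : j < n := by omega
      have := hcon ⟨j, hjn⟩ h1 h2
      simp only at this
      rw [if_neg h3, if_neg h4] at this
      rw [GR.bit_eq hjn, ← this] at hb
      exact of_decide_eq_true hb
    · intro hj
      have hjT' := Finset.mem_powerset.mp hA hj
      refine ⟨hjT', ?_⟩
      obtain ⟨h1, h2, h3, h4⟩ := hjT hjT'
      have hjn : j < n := by omega
      have := hcon ⟨j, hjn⟩ h1 h2
      simp only at this
      rw [if_neg h3, if_neg h4] at this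
      rw [GR.bit_eq hjn, ← this]
      exact decide_eq_true hj

theorem GRbad_down (x : Rw n) (k : ℕ) :
    {Q | Q ∈ S.cores ∧ Q.s = k + 1 ∧ AgOut (S.lev k) (S.lev Q.e) x Q.b}.encard ≤ S.K := by
  rcases Set.eq_empty_or_nonempty
    {Q | Q ∈ S.cores ∧ Q.s = k + 1 ∧ AgOut (S.lev k) (S.lev Q.e) x Q.b} with h | ⟨Q₀, hQ₀⟩
  · rw [h, Set.encard_empty]; exact bot_le
  · obtain ⟨h1, h2, h3⟩ := hQ₀
    have hgr : ∀ Q ∈ S.cores, Q.s = k + 1 → S.grid Q.i (k + 1) := by
      intro Q hQ hs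
      rcases S.core_s Q hQ with h | h
      · omega
      · rw [hs] at h; exact h.1
    refine le_trans (Set.encard_le_encard ?_) (S.sparse Q₀.i k
      (min S.m (k + 1 + (csm S.g + 8) * (S.h0 * S.M ^ Q₀.i))) x (min_le_left _ _) ?_)
    · rintro Q ⟨g1, g2, g3⟩
      have hi : Q.i = Q₀.i := S.grid_unique (hgr Q g1 g2) (hgr Q₀ h1 h2)
      have hlen := S.core_len Q g1
      rw [hi, g2] at hlen
      have hle := S.core_le Q g1
      refine ⟨g1, hi, by omega, le_min hle hlen, ?_⟩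
      intro j hj
      apply g3 j
      rcases hj with hj | hj
      · exact Or.inl hj
      · right
        refine le_trans ?_ hj
        exact GR.lev_mono S.toFrame (le_min hle hlen) (min_le_left _ _)
    · have hpos := S.GRh_pos Q₀.i
      unfold h at hpos
      have h1 : cR S.g = 8 * cbg S.g := rfl
      have h2 : csm S.g + 9 ≤ cR S.g := by rw [h1]; unfold cbg; omega
      have h3 : (csm S.g + 9) * (S.h0 * S.M ^ Q₀.i) ≤ cR S.g * (S.h0 * S.M ^ Q₀.i) :=
        Nat.mul_le_mul_right _ h2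
      have h4 : (csm S.g + 9) * (S.h0 * S.M ^ Q₀.i) =
        (csm S.g + 8) * (S.h0 * S.M ^ Q₀.i) + S.h0 * S.M ^ Q₀.i := by ring
      have h5 := min_le_right S.m (k + 1 + (csm S.g + 8) * (S.h0 * S.M ^ Q₀.i))
      omega

theorem GRbad_up (x : Rw n) (k : ℕ) (hk : k < S.m) :
    {Q | Q ∈ S.cores ∧ Q.e = k ∧ AgOut (S.lev Q.s) (S.lev (k + 1)) x Q.b}.encard ≤ S.K := by
  rcases Set.eq_empty_or_nonempty
    {Q | Q ∈ S.cores ∧ Q.e = k ∧ AgOut (S.lev Q.s) (S.lev (k + 1)) x Q.b} with h | ⟨Q₀, hQ₀⟩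
  · rw [h, Set.encard_empty]; exact bot_le
  · obtain ⟨h1, h2, h3⟩ := hQ₀
    have hgr : ∀ Q ∈ S.cores, Q.e = k → S.grid Q.i k := by
      intro Q hQ hs
      rcases S.core_e Q hQ with h | h
      · omega
      · rw [hs] at h; exact h.1
    refine le_trans (Set.encard_le_encard ?_) (S.sparse Q₀.i
      (k - (csm S.g + 8) * (S.h0 * S.M ^ Q₀.i)) (k + 1) x (by omega) ?_)
    · rintro Q ⟨g1, g2, g3⟩
      have hi : Q.i = Q₀.i := S.grid_unique (hgr Q g1 g2) (hgr Q₀ h1 h2)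
      have hlen := S.core_len Q g1
      rw [hi, g2] at hlen
      have hlt := S.core_lt Q g1
      refine ⟨g1, hi, by omega, by omega, ?_⟩
      intro j hj
      apply g3 j
      rcases hj with hj | hj
      · left
        refine lt_of_lt_of_le hj ?_
        exact GR.lev_mono S.toFrame (by omega) (by omega)
      · exact Or.inr hj
    · have hpos := S.GRh_pos Q₀.i
      unfold h at hpos
      have h1 : cR S.g = 8 * cbg S.g := rfl
      have h2 : csm S.g + 9 ≤ cR S.g := by rw [h1]; unfold cbg; omega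
      have h3 : (csm S.g + 9) * (S.h0 * S.M ^ Q₀.i) ≤ cR S.g * (S.h0 * S.M ^ Q₀.i) :=
        Nat.mul_le_mul_right _ h2
      have h4 : (csm S.g + 9) * (S.h0 * S.M ^ Q₀.i) =
        (csm S.g + 8) * (S.h0 * S.M ^ Q₀.i) + S.h0 * S.M ^ Q₀.i := by ring
      omega

theorem GRstep_down (x v : Rw n) (k : ℕ) (hk : k < S.m)
    (hv : ∀ Q ∈ {Q | Q ∈ S.cores ∧ Q.s = k + 1 ∧ AgOut (S.lev k) (S.lev Q.e) x Q.b},
      ∃ j : Fin n, S.lev k ≤ j.val ∧ j.val < S.lev (k + 1) ∧ v j ≠ Q.b j) :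
    ∀ Q ∈ S.cores, S.mem Q (wr (S.lev k) (S.lev (k + 1)) x v) (k + 1) → S.mem Q x k := by
  rintro Q hQ ⟨h1, h2, h3⟩
  have hle := S.core_le Q hQ
  by_cases hs : Q.s ≤ k
  · refine ⟨hs, by omega, ?_⟩
    intro j hj
    rw [← h3 j hj, GR.wr_out]
    have e1 := GR.lev_mono S.toFrame hs (by omega)
    have e2 := GR.lev_mono S.toFrame h2 hle
    omega
  · exfalso
    have hs' : Q.s = k + 1 := by omega
    obtain ⟨j, hj1, hj2, hj3⟩ := hv Q ⟨hQ, hs', by
      intro j hj
      have e1 := GR.lev_mono S.toFrame (show k ≤ k + 1 by omega) (by omega)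
      rw [← h3 j (by rw [hs']; omega), GR.wr_out]
      have e2 := GR.lev_mono S.toFrame h2 hle
      omega⟩
    apply hj3
    rw [← h3 j (by rw [hs']; exact Or.inl hj2), GR.wr_in hj1 hj2]

theorem GRstep_up (x v : Rw n) (k : ℕ) (hk : k < S.m)
    (hv : ∀ Q ∈ {Q | Q ∈ S.cores ∧ Q.e = k ∧ AgOut (S.lev Q.s) (S.lev (k + 1)) x Q.b},
      ∃ j : Fin n, S.lev k ≤ j.val ∧ j.val < S.lev (k + 1) ∧ v j ≠ Q.b j) :
    ∀ Q ∈ S.cores, S.mem Q (wr (S.lev k) (S.lev (k + 1)) x v) k → S.mem Q x (k + 1) := by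
  rintro Q hQ ⟨h1, h2, h3⟩
  have hle := S.core_le Q hQ
  have hlt := S.core_lt Q hQ
  by_cases hs : k + 1 ≤ Q.e
  · refine ⟨by omega, hs, ?_⟩
    intro j hj
    rw [← h3 j hj, GR.wr_out]
    have e1 := GR.lev_mono S.toFrame h1 (by omega)
    have e2 := GR.lev_mono S.toFrame hs hle
    omega
  · exfalso
    have hs' : Q.e = k := by omega
    obtain ⟨j, hj1, hj2, hj3⟩ := hv Q ⟨hQ, hs', by
      intro j hj
      have e1 := GR.lev_mono S.toFrame (show k ≤ k + 1 by omega) (by omega)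
      rw [← h3 j (by rw [hs']; omega), GR.wr_out]
      have e2 := GR.lev_mono S.toFrame h1 (by omega)
      omega⟩
    apply hj3
    rw [← h3 j (by rw [hs']; exact Or.inr hj1), GR.wr_in hj1 hj2]

/-- Crossing digit `k` downwards, simultaneously from the sites `(x,k)` and `(y,k)`, with the same
new digit, prescribed role and signature bits: no new core is entered. -/
theorem greedy_down (x y : Rw n) (k : ℕ) (hk : k < S.m) (ρ σ : Bool) :
    ∃ v : Rw n, bit v (S.rb k) = ρ ∧ bit v (S.sb k) = σ ∧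
      (∀ Q ∈ S.cores, S.mem Q (wr (S.lev k) (S.lev (k + 1)) x v) (k + 1) → S.mem Q x k) ∧
      (∀ Q ∈ S.cores, S.mem Q (wr (S.lev k) (S.lev (k + 1)) y v) (k + 1) → S.mem Q y k) := by
  obtain ⟨v, h1, h2, h3⟩ := S.GRexists_digit hk ρ σ
    ({Q | Q ∈ S.cores ∧ Q.s = k + 1 ∧ AgOut (S.lev k) (S.lev Q.e) x Q.b} ∪
     {Q | Q ∈ S.cores ∧ Q.s = k + 1 ∧ AgOut (S.lev k) (S.lev Q.e) y Q.b}) (by
      refine (Set.encard_union_le _ _).trans ?_
      refine (add_le_add (S.GRbad_down x k) (S.GRbad_down y k)).trans ?_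
      rw [two_mul]; push_cast; exact le_rfl)
  exact ⟨v, h1, h2, S.GRstep_down x v k hk fun Q hQ => h3 Q (Or.inl hQ),
    S.GRstep_down y v k hk fun Q hQ => h3 Q (Or.inr hQ)⟩

/-- the same upwards, from `(x, k+1)` and `(y, k+1)` -/
theorem greedy_up (x y : Rw n) (k : ℕ) (hk : k < S.m) (ρ σ : Bool) :
    ∃ v : Rw n, bit v (S.rb k) = ρ ∧ bit v (S.sb k) = σ ∧
      (∀ Q ∈ S.cores, S.mem Q (wr (S.lev k) (S.lev (k + 1)) x v) k → S.mem Q x (k + 1)) ∧
      (∀ Q ∈ S.cores, S.mem Q (wr (S.lev k) (S.lev (k + 1)) y v) k → S.mem Q y (k + 1)) := by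
  obtain ⟨v, h1, h2, h3⟩ := S.GRexists_digit hk ρ σ
    ({Q | Q ∈ S.cores ∧ Q.e = k ∧ AgOut (S.lev Q.s) (S.lev (k + 1)) x Q.b} ∪
     {Q | Q ∈ S.cores ∧ Q.e = k ∧ AgOut (S.lev Q.s) (S.lev (k + 1)) y Q.b}) (by
      refine (Set.encard_union_le _ _).trans ?_
      refine (add_le_add (S.GRbad_up x k hk) (S.GRbad_up y k hk)).trans ?_
      rw [two_mul]; push_cast; exact le_rfl)
  exact ⟨v, h1, h2, S.GRstep_up x v k hk fun Q hQ => h3 Q (Or.inl hQ),
    S.GRstep_up y v k hk fun Q hQ => h3 Q (Or.inr hQ)⟩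

theorem GRin_digit (k : ℕ) (hk : k < S.m) {x v : Rw n} {j : ℕ} (h1 : S.lev k ≤ j)
    (h2 : j < S.lev (k + 1)) : bit (wr (S.lev k) (S.lev (k + 1)) x v) j = bit v j := by
  have hn := GR.lev_le_n S.toFrame (k := k + 1) (by omega)
  rw [GR.bit_eq (by omega), GR.bit_eq (by omega), GR.wr_in h1 h2]

theorem GRout_digit (k : ℕ) {x v : Rw n} {j : ℕ}
    (h1 : j < S.lev k ∨ S.lev (k + 1) ≤ j) :
    bit (wr (S.lev k) (S.lev (k + 1)) x v) j = bit x j := by
  by_cases hj : j < n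
  · rw [GR.bit_eq hj, GR.bit_eq hj, GR.wr_out h1]
  · unfold bit; rw [dif_neg hj, dif_neg hj]

/-- properties of one run downwards -/
theorem GRrun_down_one (X V : ℕ → Rw n) (p q : ℕ) (hq : q ≤ S.m) (ρ σ : ℕ → Bool)
    (hV : ∀ k, p ≤ k → k < q → bit (V k) (S.rb k) = ρ k ∧ bit (V k) (S.sb k) = σ k)
    (hX : ∀ k, p ≤ k → k < q → X (k + 1) = wr (S.lev k) (S.lev (k + 1)) (X k) (V k))
    (hm : ∀ k, p ≤ k → k < q → ∀ Q ∈ S.cores, S.mem Q (X (k + 1)) (k + 1) → S.mem Q (X k) k) :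
    (∀ k, p ≤ k → k ≤ q → AgOut (S.lev p) (S.lev k) (X k) (X p) ∧
      (∀ d, p ≤ d → d < k → bit (X k) (S.rb d) = ρ d ∧ bit (X k) (S.sb d) = σ d)) ∧
    (∀ k, p ≤ k → k < q → AgOut (S.lev k) (S.lev (k + 1)) (X k) (X (k + 1))) ∧
    (∀ k l, p ≤ k → k ≤ l → l ≤ q → ∀ Q ∈ S.cores, S.mem Q (X l) l → S.mem Q (X k) k) := by
  refine ⟨?_, ?_, ?_⟩
  · intro k hpk
    induction k, hpk using Nat.le_induction with
    | base =>
      intro _
      exact ⟨fun j _ => rfl, fun d h1 h2 => by omega⟩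
    | succ k hpk ih =>
      intro hkq
      obtain ⟨ih1, ih2⟩ := ih (by omega)
      have e0 := GR.lev_mono S.toFrame hpk (by omega)
      have e1 := GR.lev_step S.toFrame (show k < S.m by omega)
      have hr1 := S.rb_lo k (by omega)
      have hr2 := S.rb_hi k (by omega)
      have hs1 := S.sb_lo k (by omega)
      have hs2 := S.sb_hi k (by omega)
      rw [hX k hpk (by omega)]
      constructor
      · intro j hj
        rw [GR.wr_out (by omega)]
        exact ih1 j (by omega)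
      · intro d h1 h2
        by_cases hd : d = k
        · subst hd
          rw [S.GRin_digit d (by omega) (by omega) (by omega),
            S.GRin_digit d (by omega) (by omega) (by omega)]
          exact hV d h1 (by omega)
        · have hr3 := S.rb_hi d (by omega)
          have hs3 := S.sb_hi d (by omega)
          have e2 := GR.lev_mono S.toFrame (show d + 1 ≤ k by omega) (by omega)
          rw [S.GRout_digit k (by omega), S.GRout_digit k (by omega)]
          exact ih2 d h1 (by omega)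
  · intro k h1 h2 j hj
    rw [hX k h1 h2, GR.wr_out hj]
  · intro k l hpk hkl
    induction l, hkl using Nat.le_induction with
    | base => intro _ Q _ h; exact h
    | succ l hkl ih =>
      intro hlq Q hQ h
      exact ih (by omega) Q hQ (hm l (by omega) (by omega) Q hQ h)

/-- properties of one run upwards -/
theorem GRrun_up_one (X V : ℕ → Rw n) (p q : ℕ) (hq : q ≤ S.m) (ρ σ : ℕ → Bool)
    (hV : ∀ k, p ≤ k → k < q → bit (V k) (S.rb k) = ρ k ∧ bit (V k) (S.sb k) = σ k)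
    (hX : ∀ k, p ≤ k → k < q → X k = wr (S.lev k) (S.lev (k + 1)) (X (k + 1)) (V k))
    (hm : ∀ k, p ≤ k → k < q → ∀ Q ∈ S.cores, S.mem Q (X k) k → S.mem Q (X (k + 1)) (k + 1)) :
    (∀ k, p ≤ k → k ≤ q → AgOut (S.lev k) (S.lev q) (X k) (X q) ∧
      (∀ d, k ≤ d → d < q → bit (X k) (S.rb d) = ρ d ∧ bit (X k) (S.sb d) = σ d)) ∧
    (∀ k, p ≤ k → k < q → AgOut (S.lev k) (S.lev (k + 1)) (X k) (X (k + 1))) ∧
    (∀ k l, p ≤ k → k ≤ l → l ≤ q → ∀ Q ∈ S.cores, S.mem Q (X k) k → S.mem Q (X l) l) := by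
  refine ⟨?_, ?_, ?_⟩
  · intro k hpk hkq
    revert hpk
    induction hkq using Nat.decreasingInduction with
    | self => intro _; exact ⟨fun j _ => rfl, fun d h1 h2 => by omega⟩
    | of_succ k hkq ih =>
      intro hpk
      obtain ⟨ih1, ih2⟩ := ih (by omega)
      have e0 := GR.lev_mono S.toFrame (show k + 1 ≤ q by omega) (by omega)
      have e1 := GR.lev_step S.toFrame (show k < S.m by omega)
      have hr1 := S.rb_lo k (by omega)
      have hr2 := S.rb_hi k (by omega)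
      have hs1 := S.sb_lo k (by omega)
      have hs2 := S.sb_hi k (by omega)
      rw [hX k hpk (by omega)]
      constructor
      · intro j hj
        rw [GR.wr_out (by omega)]
        exact ih1 j (by omega)
      · intro d h1 h2
        by_cases hd : d = k
        · subst hd
          rw [S.GRin_digit d (by omega) (by omega) (by omega),
            S.GRin_digit d (by omega) (by omega) (by omega)]
          exact hV d (by omega) (by omega)
        · have hr3 := S.rb_lo d (by omega)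
          have hs3 := S.sb_lo d (by omega)
          have e2 := GR.lev_mono S.toFrame (show k + 1 ≤ d by omega) (by omega)
          rw [S.GRout_digit k (by omega), S.GRout_digit k (by omega)]
          exact ih2 d (by omega) (by omega)
  · intro k h1 h2 j hj
    rw [hX k h1 h2, GR.wr_out hj]
  · intro k l hpk hkl
    induction l, hkl using Nat.le_induction with
    | base => intro _ Q _ h; exact h
    | succ l hkl ih =>
      intro hlq Q hQ h
      exact hm l (by omega) (by omega) Q hQ (ih (by omega) Q hQ h)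

/-- double run downwards from `p` to `q` -/
theorem run_down (x y : Rw n) (p q : ℕ) (hpq : p ≤ q) (hq : q ≤ S.m) (ρ σ : ℕ → Bool) :
    ∃ X Y : ℕ → Rw n, X p = x ∧ Y p = y ∧
      (∀ k, p ≤ k → k ≤ q → AgOut (S.lev p) (S.lev k) (X k) x ∧ AgOut (S.lev p) (S.lev k) (Y k) y ∧
        (∀ j : Fin n, S.lev p ≤ j.val → j.val < S.lev k → X k j = Y k j) ∧
        (∀ d, p ≤ d → d < k → bit (X k) (S.rb d) = ρ d ∧ bit (X k) (S.sb d) = σ d ∧
          bit (Y k) (S.rb d) = ρ d ∧ bit (Y k) (S.sb d) = σ d)) ∧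
      (∀ k, p ≤ k → k < q → AgOut (S.lev k) (S.lev (k + 1)) (X k) (X (k + 1)) ∧
        AgOut (S.lev k) (S.lev (k + 1)) (Y k) (Y (k + 1))) ∧
      (∀ k l, p ≤ k → k ≤ l → l ≤ q → ∀ Q ∈ S.cores, (S.mem Q (X l) l → S.mem Q (X k) k) ∧
        (S.mem Q (Y l) l → S.mem Q (Y k) k)) := by
  obtain ⟨f, hf, hf'⟩ := GR.exists_seq_up (α := Rw n × Rw n) (fun k a b => ∃ v : Rw n,
    (bit v (S.rb k) = ρ k ∧ bit v (S.sb k) = σ k) ∧
    b.1 = wr (S.lev k) (S.lev (k + 1)) a.1 v ∧ b.2 = wr (S.lev k) (S.lev (k + 1)) a.2 v ∧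
    (∀ Q ∈ S.cores, S.mem Q b.1 (k + 1) → S.mem Q a.1 k) ∧
    (∀ Q ∈ S.cores, S.mem Q b.2 (k + 1) → S.mem Q a.2 k)) p q (by
      intro k h1 h2 a
      obtain ⟨v, g1, g2, g3, g4⟩ := S.greedy_down a.1 a.2 k (by omega) (ρ k) (σ k)
      exact ⟨(wr (S.lev k) (S.lev (k + 1)) a.1 v, wr (S.lev k) (S.lev (k + 1)) a.2 v), v,
        ⟨g1, g2⟩, rfl, rfl, g3, g4⟩) (x, y)
  choose! V hV hX hY hmX hmY using hf'
  have hx : (f p).1 = x := by rw [hf]
  have hy : (f p).2 = y := by rw [hf]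
  obtain ⟨a1, a2, a3⟩ := S.GRrun_down_one (fun k => (f k).1) V p q hq ρ σ hV hX hmX
  obtain ⟨b1, b2, b3⟩ := S.GRrun_down_one (fun k => (f k).2) V p q hq ρ σ hV hY hmY
  simp only [hx] at a1
  simp only [hy] at b1
  refine ⟨fun k => (f k).1, fun k => (f k).2, hx, hy, ?_, ?_, ?_⟩
  · intro k h1 h2
    refine ⟨(a1 k h1 h2).1, (b1 k h1 h2).1, ?_, ?_⟩
    · intro j hj
      induction k, h1 using Nat.le_induction with
      | base => intro hj'; omega
      | succ k h1 ih =>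
        intro hj'
        show (f (k + 1)).1 j = (f (k + 1)).2 j
        rw [hX k h1 (by omega), hY k h1 (by omega)]
        by_cases hjk : S.lev k ≤ j.val
        · rw [GR.wr_in hjk hj', GR.wr_in hjk hj']
        · rw [GR.wr_out (by omega), GR.wr_out (by omega)]
          exact ih (by omega) (by omega)
    · intro d hd1 hd2
      exact ⟨((a1 k h1 h2).2 d hd1 hd2).1, ((a1 k h1 h2).2 d hd1 hd2).2,
        ((b1 k h1 h2).2 d hd1 hd2).1, ((b1 k h1 h2).2 d hd1 hd2).2⟩
  · intro k h1 h2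
    exact ⟨a2 k h1 h2, b2 k h1 h2⟩
  · intro k l h1 h2 h3 Q hQ
    exact ⟨a3 k l h1 h2 h3 Q hQ, b3 k l h1 h2 h3 Q hQ⟩

/-- double run upwards from `q` to `p` -/
theorem run_up (x y : Rw n) (p q : ℕ) (hpq : p ≤ q) (hq : q ≤ S.m) (ρ σ : ℕ → Bool) :
    ∃ X Y : ℕ → Rw n, X q = x ∧ Y q = y ∧
      (∀ k, p ≤ k → k ≤ q → AgOut (S.lev k) (S.lev q) (X k) x ∧ AgOut (S.lev k) (S.lev q) (Y k) y ∧
        (∀ j : Fin n, S.lev k ≤ j.val → j.val < S.lev q → X k j = Y k j) ∧
        (∀ d, k ≤ d → d < q → bit (X k) (S.rb d) = ρ d ∧ bit (X k) (S.sb d) = σ d ∧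
          bit (Y k) (S.rb d) = ρ d ∧ bit (Y k) (S.sb d) = σ d)) ∧
      (∀ k, p ≤ k → k < q → AgOut (S.lev k) (S.lev (k + 1)) (X k) (X (k + 1)) ∧
        AgOut (S.lev k) (S.lev (k + 1)) (Y k) (Y (k + 1))) ∧
      (∀ k l, p ≤ k → k ≤ l → l ≤ q → ∀ Q ∈ S.cores, (S.mem Q (X k) k → S.mem Q (X l) l) ∧
        (S.mem Q (Y k) k → S.mem Q (Y l) l)) := by
  obtain ⟨f, hf, hf'⟩ := GR.exists_seq_down (α := Rw n × Rw n) (fun k a b => ∃ v : Rw n,
    (bit v (S.rb k) = ρ k ∧ bit v (S.sb k) = σ k) ∧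
    b.1 = wr (S.lev k) (S.lev (k + 1)) a.1 v ∧ b.2 = wr (S.lev k) (S.lev (k + 1)) a.2 v ∧
    (∀ Q ∈ S.cores, S.mem Q b.1 k → S.mem Q a.1 (k + 1)) ∧
    (∀ Q ∈ S.cores, S.mem Q b.2 k → S.mem Q a.2 (k + 1))) p q (by
      intro k h1 h2 a
      obtain ⟨v, g1, g2, g3, g4⟩ := S.greedy_up a.1 a.2 k (by omega) (ρ k) (σ k)
      exact ⟨(wr (S.lev k) (S.lev (k + 1)) a.1 v, wr (S.lev k) (S.lev (k + 1)) a.2 v), v,
        ⟨g1, g2⟩, rfl, rfl, g3, g4⟩) (x, y)
  choose! V hV hX hY hmX hmY using hf'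
  have hx : (f q).1 = x := by rw [hf]
  have hy : (f q).2 = y := by rw [hf]
  obtain ⟨a1, a2, a3⟩ := S.GRrun_up_one (fun k => (f k).1) V p q hq ρ σ hV hX hmX
  obtain ⟨b1, b2, b3⟩ := S.GRrun_up_one (fun k => (f k).2) V p q hq ρ σ hV hY hmY
  simp only [hx] at a1
  simp only [hy] at b1
  refine ⟨fun k => (f k).1, fun k => (f k).2, hx, hy, ?_, ?_, ?_⟩
  · intro k h1 h2
    refine ⟨(a1 k h1 h2).1, (b1 k h1 h2).1, ?_, ?_⟩
    · intro j
      revert h1
      induction h2 using Nat.decreasingInduction with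
      | self => intro _ hj hj'; omega
      | of_succ k h2 ih =>
        intro h1 hj hj'
        show (f k).1 j = (f k).2 j
        rw [hX k h1 (by omega), hY k h1 (by omega)]
        by_cases hjk : j.val < S.lev (k + 1)
        · rw [GR.wr_in hj hjk, GR.wr_in hj hjk]
        · rw [GR.wr_out (by omega), GR.wr_out (by omega)]
          exact ih (by omega) (by omega) hj'
    · intro d hd1 hd2
      exact ⟨((a1 k h1 h2).2 d hd1 hd2).1, ((a1 k h1 h2).2 d hd1 hd2).2,
        ((b1 k h1 h2).2 d hd1 hd2).1, ((b1 k h1 h2).2 d hd1 hd2).2⟩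
  · intro k h1 h2
    exact ⟨a2 k h1 h2, b2 k h1 h2⟩
  · intro k l h1 h2 h3 Q hQ
    exact ⟨a3 k l h1 h2 h3 Q hQ, b3 k l h1 h2 h3 Q hQ⟩

end Sys

end Pool.Agent.Bfly
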